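import Mathlib

set_option autoImplicit false

namespace Pool.Agent.MP_1231ed_gt.S

/-- `A` is isometric to the Euclidean product of the spaces `Y j` with base points `a j`: the
families at square-summable distance from `a`. -/
def IsL2 (A : Type) [MetricSpace A] {J : Type} (Y : J → Type) [∀ j, MetricSpace (Y j)]
    (a : ∀ j, Y j) : Prop :=
  ∃ f : A → ∀ j, Y j, (∀ p q : A, HasSum (fun j => dist (f p j) (f q j) ^ 2) (dist p q ^ 2)) ∧
    ∀ y : ∀ j, Y j, y ∈ Set.range f ↔ Summable fun j => dist (y j) (a j) ^ 2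

end Pool.Agent.MP_1231ed_gt.S
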