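import Pool.Agent.MP_1231ed_gt.R.Big
import Pool.Agent.MP_1231ed_gt.S.L2

set_option autoImplicit false

section FBA
namespace Pool.Agent.MP_1231ed_gt.S

open Function

variable {α G : Type} [CompleteBooleanAlgebra α] [Group G]

/-- Equidecomposability in a complete Boolean algebra. -/
def Eqv (ρ : G →* (α ≃o α)) (e f : α) : Prop :=
  ∃ u : G → α, Pairwise (Disjoint on u) ∧ Pairwise (Disjoint on fun g => ρ g (u g)) ∧
    ⨆ g, u g = e ∧ ⨆ g, ρ g (u g) = f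

/-- Subequivalence. -/
def Sub (ρ : G →* (α ≃o α)) (e f : α) : Prop := ∃ f₁, f₁ ≤ f ∧ Eqv ρ e f₁

/-- Invariant elements. -/
def Inv (ρ : G →* (α ≃o α)) (z : α) : Prop := ∀ g, ρ g z = z

/-- Finite elements. -/
def Fin' (ρ : G →* (α ≃o α)) (e : α) : Prop := ∀ e', e' ≤ e → Eqv ρ e e' → e' = e

variable {ρ : G →* (α ≃o α)} {e f k z : α}

theorem mul_app (g h : G) (a : α) : ρ (g * h) a = ρ g (ρ h a) := by rw [map_mul]; rfl

@[simp] theorem one_app (a : α) : ρ 1 a = a := by rw [map_one]; rfl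

@[simp] theorem inv_app (g : G) (a : α) : ρ g⁻¹ (ρ g a) = a := by
  rw [← mul_app, inv_mul_cancel, one_app]

@[simp] theorem app_inv (g : G) (a : α) : ρ g (ρ g⁻¹ a) = a := by
  rw [← mul_app, mul_inv_cancel, one_app]

theorem app_disj (g : G) {a b : α} : Disjoint (ρ g a) (ρ g b) ↔ Disjoint a b :=
  disjoint_map_orderIso_iff _

theorem Eqv.of_family {J : Type} (v : J → α) (g : J → G) (h1 : Pairwise (Disjoint on v))
    (h2 : Pairwise (Disjoint on fun j => ρ (g j) (v j))) :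
    Eqv ρ (⨆ j, v j) (⨆ j, ρ (g j) (v j)) := by
  have e : ∀ h, ρ h (⨆ j : {j // g j = h}, v j) = ⨆ j : {j // g j = h}, ρ (g j) (v j) := fun h => by
    rw [OrderIso.map_iSup]
    exact iSup_congr fun j => by rw [j.2]
  refine ⟨fun h => ⨆ j : {j // g j = h}, v j, fun h h' hn => ?_, fun h h' hn => ?_, ?_, ?_⟩
  · simp only [onFun, iSup_disjoint_iff, disjoint_iSup_iff]
    exact fun i j => h1 fun e => hn (by rw [← i.2, ← j.2, e])
  · simp only [onFun, e, iSup_disjoint_iff, disjoint_iSup_iff]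
    exact fun i j => h2 fun e => hn (by rw [← i.2, ← j.2, e])
  · exact le_antisymm (iSup_le fun h => iSup_le fun j => le_iSup v j)
      (iSup_le fun j => le_iSup₂_of_le (f := fun h (j : {j // g j = h}) => v j) (g j) ⟨j, rfl⟩ le_rfl)
  · simp only [e]
    exact le_antisymm (iSup_le fun h => iSup_le fun j => le_iSup (fun j => ρ (g j) (v j)) j)
      (iSup_le fun j => le_iSup₂_of_le (f := fun h (j : {j // g j = h}) => ρ (g j) (v j))
        (g j) ⟨j, rfl⟩ le_rfl)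

theorem Eqv.app (g : G) (e : α) : Eqv ρ e (ρ g e) := by
  simpa using Eqv.of_family (ρ := ρ) (fun _ : Unit => e) (fun _ => g) Subsingleton.pairwise
    Subsingleton.pairwise

theorem Eqv.refl (e : α) : Eqv ρ e e := by simpa using Eqv.app (ρ := ρ) 1 e

theorem Eqv.symm (h : Eqv ρ e f) : Eqv ρ f e := by
  obtain ⟨u, h1, h2, rfl, rfl⟩ := h
  simpa using Eqv.of_family (ρ := ρ) (fun g => ρ g (u g)) (fun g => g⁻¹) h2 (by simpa using h1)

theorem Eqv.glue {J : Type} {a b : J → α} (h : ∀ j, Eqv ρ (a j) (b j))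
    (h1 : Pairwise (Disjoint on a)) (h2 : Pairwise (Disjoint on b)) :
    Eqv ρ (⨆ j, a j) (⨆ j, b j) := by
  choose u u1 u2 u3 u4 using h
  have := Eqv.of_family (ρ := ρ) (fun p : J × G => u p.1 p.2) (fun p => p.2) ?_ ?_
  · rwa [iSup_prod, iSup_prod, iSup_congr u3, iSup_congr u4] at this
  · rintro ⟨i, g⟩ ⟨j, g'⟩ hn
    by_cases e : i = j
    · subst e
      exact u1 i fun e => hn (Prod.ext rfl e)
    · exact (h1 e).mono (u3 i ▸ le_iSup (u i) g) (u3 j ▸ le_iSup (u j) g')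
  · rintro ⟨i, g⟩ ⟨j, g'⟩ hn
    by_cases e : i = j
    · subst e
      exact u2 i fun e => hn (Prod.ext rfl e)
    · exact (h2 e).mono (u4 i ▸ le_iSup (fun g => ρ g (u i g)) g)
        (u4 j ▸ le_iSup (fun g => ρ g (u j g)) g')

theorem Eqv.sup {a b a' b' : α} (h : Eqv ρ a b) (h' : Eqv ρ a' b') (d : Disjoint a a')
    (d' : Disjoint b b') : Eqv ρ (a ⊔ a') (b ⊔ b') := by
  have := Eqv.glue (ρ := ρ) (a := fun t : Bool => cond t a a') (b := fun t => cond t b b')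
    (by rintro (_ | _) <;> assumption) (pairwise_disjoint_on_bool.2 d)
    (pairwise_disjoint_on_bool.2 d')
  rwa [iSup_bool_eq, iSup_bool_eq] at this

/-- An equivalence is carried by a map on the elements below `e`. -/
theorem Eqv.map (h : Eqv ρ e f) : ∃ φ : α → α, Monotone φ ∧ φ e = f ∧ (∀ a, φ a ≤ f) ∧
    (∀ a, a ≤ e → Eqv ρ a (φ a)) ∧ (∀ a b, Disjoint a b → Disjoint (φ a) (φ b)) ∧
    (∀ a b, φ (a ⊔ b) = φ a ⊔ φ b) ∧ ∀ z a, Inv ρ z → φ (z ⊓ a) = z ⊓ φ a := by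
  obtain ⟨u, h1, h2, rfl, rfl⟩ := h
  refine ⟨fun a => ⨆ g, ρ g (u g ⊓ a), fun a b hab => iSup_mono fun g =>
    (ρ g).monotone (inf_le_inf_left _ hab), iSup_congr fun g => by rw [inf_eq_left.2 (le_iSup u g)],
    fun a => iSup_mono fun g => (ρ g).monotone inf_le_left, fun a ha => ?_, fun a b d => ?_,
    fun a b => ?_, fun z a hz => ?_⟩
  · have := Eqv.of_family (ρ := ρ) (fun g => u g ⊓ a) id
      (fun g g' hn => (h1 hn).mono inf_le_left inf_le_left)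
      (fun g g' hn => (h2 hn).mono ((ρ g).monotone inf_le_left) ((ρ g').monotone inf_le_left))
    rwa [← iSup_inf_eq, inf_eq_right.2 ha] at this
  · simp only [iSup_disjoint_iff, disjoint_iSup_iff]
    intro g g'
    by_cases e : g = g'
    · subst e
      exact (app_disj _).2 (d.mono inf_le_right inf_le_right)
    · exact (h2 (Ne.symm e)).mono ((ρ g').monotone inf_le_left) ((ρ g).monotone inf_le_left)
  · simp only [inf_sup_left, map_sup, iSup_sup_eq]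
  · rw [inf_iSup_eq]
    exact iSup_congr fun g => by rw [inf_left_comm, map_inf, hz g]

theorem Eqv.trans (h : Eqv ρ e f) (h' : Eqv ρ f k) : Eqv ρ e k := by
  obtain ⟨u, h1, h2, rfl, rfl⟩ := h
  obtain ⟨v, k1, k2, k3, rfl⟩ := h'
  have := Eqv.of_family (ρ := ρ) (fun p : G × G => u p.1 ⊓ ρ p.1⁻¹ (v p.2)) (fun p => p.2 * p.1) ?_ ?_
  · rw [iSup_prod, iSup_prod] at this
    convert this using 1
    · refine iSup_congr fun g => ?_
      simp only [← inf_iSup_eq, ← OrderIso.map_iSup, k3]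
      refine (inf_eq_left.2 ?_).symm
      conv_lhs => rw [← inv_app (ρ := ρ) g (u g)]
      exact (ρ g⁻¹).monotone (le_iSup (fun g => ρ g (u g)) g)
    · rw [iSup_comm]
      refine iSup_congr fun h => ?_
      simp only [mul_app, map_inf (ρ _) (u _), app_inv, ← OrderIso.map_iSup, ← iSup_inf_eq, ← k3]
      rw [← map_inf, inf_eq_right.2 (le_iSup v h)]
  · rintro ⟨g, h⟩ ⟨g', h'⟩ hn
    by_cases e : g = g'
    · subst e
      exact ((app_disj _).2 (k1 fun e => hn (Prod.ext rfl e))).mono inf_le_right inf_le_right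
    · exact (h1 e).mono inf_le_left inf_le_left
  · rintro ⟨g, h⟩ ⟨g', h'⟩ hn
    simp only [onFun, mul_app, map_inf (ρ _) (u _), app_inv]
    by_cases e : h = h'
    · subst e
      exact ((app_disj _).2 (h2 fun e => hn (Prod.ext e rfl))).mono inf_le_left inf_le_left
    · exact (k2 e).mono inf_le_right inf_le_right

theorem Eqv.inv_inf (h : Eqv ρ e f) (hz : Inv ρ z) : Eqv ρ (z ⊓ e) (z ⊓ f) := by
  obtain ⟨φ, -, h1, -, h2, -, -, h3⟩ := h.map
  have := h2 (z ⊓ e) inf_le_right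
  rwa [h3 z e hz, h1] at this

theorem Eqv.eq_bot (h : Eqv ρ e ⊥) : e = ⊥ := by
  obtain ⟨u, -, -, rfl, h⟩ := h
  rw [iSup_eq_bot] at h ⊢
  exact fun g => (ρ g).injective (by rw [h, map_bot])

theorem Eqv.le_inv (h : Eqv ρ e f) (hz : Inv ρ z) (he : e ≤ z) : f ≤ z := by
  obtain ⟨u, -, -, rfl, rfl⟩ := h
  exact iSup_le fun g => hz g ▸ (ρ g).monotone ((le_iSup u g).trans he)

theorem Inv.compl (hz : Inv ρ z) : Inv ρ zᶜ := fun g => by rw [map_compl', hz g]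

theorem Inv.inf (hz : Inv ρ z) (hk : Inv ρ k) : Inv ρ (z ⊓ k) := fun g => by
  rw [map_inf, hz g, hk g]

theorem Inv.sSup {T : Set α} (h : ∀ z ∈ T, Inv ρ z) : Inv ρ (sSup T) := fun g => by
  rw [OrderIso.map_sSup, sSup_eq_iSup]
  exact iSup_congr fun z => iSup_congr fun hz => h z hz g

theorem inv_sat (d : α) : Inv ρ (⨆ g, ρ g d) := fun h => by
  rw [OrderIso.map_iSup]
  simp only [← mul_app]
  exact (Equiv.mulLeft h).iSup_congr fun _ => rfl

theorem Sub.trans (h : Sub ρ e f) (h' : Sub ρ f k) : Sub ρ e k := by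
  obtain ⟨a, h1, h2⟩ := h
  obtain ⟨b, h3, h4⟩ := h'
  obtain ⟨φ, -, -, u, v, -⟩ := h4.map
  exact ⟨φ a, (u a).trans h3, h2.trans (v a h1)⟩

theorem Sub.of_le (h : e ≤ f) : Sub ρ e f := ⟨e, h, Eqv.refl e⟩

theorem Sub.sup {a b a' b' : α} (h : Sub ρ a b) (h' : Sub ρ a' b') (d : Disjoint a a')
    (d' : Disjoint b b') : Sub ρ (a ⊔ a') (b ⊔ b') := by
  obtain ⟨c, h1, h2⟩ := h
  obtain ⟨c', h3, h4⟩ := h'
  exact ⟨c ⊔ c', sup_le_sup h1 h3, h2.sup h4 d (d'.mono h1 h3)⟩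

theorem Fin'.mono (h : Fin' ρ e) (hf : f ≤ e) : Fin' ρ f := fun a ha ea => by
  have := h (a ⊔ e \ f) (sup_le (ha.trans hf) sdiff_le) (by
    have := ea.sup (Eqv.refl (e \ f)) disjoint_sdiff_self_right (disjoint_sdiff_self_right.mono_left ha)
    rwa [sup_sdiff_cancel_right hf] at this)
  refine le_antisymm ha ?_
  exact (disjoint_sdiff_self_right (x := f) (y := e)).left_le_of_le_sup_right (hf.trans this.ge)

/-! Statements of the steps. -/

def SSB : Prop := ∀ (α G : Type) [CompleteBooleanAlgebra α] [Group G] (ρ : G →* (α ≃o α))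
  (e f : α), Sub ρ e f → Sub ρ f e → Eqv ρ e f

def SCmp : Prop := ∀ (α G : Type) [CompleteBooleanAlgebra α] [Group G] (ρ : G →* (α ≃o α))
  (e f : α), ∃ z, Inv ρ z ∧ Sub ρ (z ⊓ e) (z ⊓ f) ∧ Sub ρ (zᶜ ⊓ f) (zᶜ ⊓ e)

def SFF : Prop := ∀ (α G : Type) [CompleteBooleanAlgebra α] [Group G] (ρ : G →* (α ≃o α))
  (a b : α), Disjoint a b → Fin' ρ a → Fin' ρ b → Fin' ρ (a ⊔ b)

def SInfin : Prop := ∀ (α G : Type) [CompleteBooleanAlgebra α] [Group G] [Countable G]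
  (ρ : G →* (α ≃o α)) (b : α), ∃ z, Inv ρ z ∧ Fin' ρ (z ⊓ b) ∧ Sub ρ zᶜ (zᶜ ⊓ b)

def SHalf : Prop := ∀ (α G : Type) [CompleteBooleanAlgebra α] [Group G] [Countable G]
  (ρ : G →* (α ≃o α)) (s t : G) (p q : α), ρ s p = pᶜ → ρ t q = qᶜ → Eqv ρ p q

end Pool.Agent.MP_1231ed_gt.S

end FBA

section FCmp
namespace Pool.Agent.MP_1231ed_gt.S

open Function

namespace CmpA

variable {α G : Type} [CompleteBooleanAlgebra α] [Group G]

/-- a maximal equivalence between parts of `e` and `f` -/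
theorem exists_max (ρ : G →* (α ≃o α)) (e f : α) : ∃ e₀ f₀, e₀ ≤ e ∧ f₀ ≤ f ∧ Eqv ρ e₀ f₀ ∧
    ∀ g, Disjoint (ρ g (e \ e₀)) (f \ f₀) := by
  obtain ⟨F, hF⟩ := zorn_subset {F : Set (α × G) | (∀ p ∈ F, p.1 ≤ e ∧ ρ p.2 p.1 ≤ f) ∧
      F.Pairwise fun p q => Disjoint p.1 q.1 ∧ Disjoint (ρ p.2 p.1) (ρ q.2 q.1)}
    fun c hc ch => ⟨⋃₀ c, ⟨fun p ⟨t, ht, hp⟩ => (hc ht).1 p hp,
      ch.pairwise_sUnion.2 fun t ht => (hc ht).2⟩, fun s hs => Set.subset_sUnion_of_mem hs⟩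
  obtain ⟨h1, h2⟩ := hF.prop
  refine ⟨⨆ p : F, p.1.1, ⨆ p : F, ρ p.1.2 p.1.1, iSup_le fun p => (h1 p.1 p.2).1,
    iSup_le fun p => (h1 p.1 p.2).2, Eqv.of_family _ _
      (fun p q hn => (h2 p.2 q.2 fun e => hn (Subtype.ext e)).1)
      (fun p q hn => (h2 p.2 q.2 fun e => hn (Subtype.ext e)).2), fun g => ?_⟩
  obtain ⟨a, ha⟩ : ∃ a, a = (e \ ⨆ p : F, p.1.1) ⊓ ρ g⁻¹ (f \ ⨆ p : F, ρ p.1.2 p.1.1) := ⟨_, rfl⟩
  have ga : ρ g a = ρ g (e \ ⨆ p : F, p.1.1) ⊓ (f \ ⨆ p : F, ρ p.1.2 p.1.1) := by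
    rw [ha, map_inf, app_inv]
  have a1 : a ≤ e \ ⨆ p : F, p.1.1 := ha.le.trans inf_le_left
  have a2 : ρ g a ≤ f \ ⨆ p : F, ρ p.1.2 p.1.1 := ga.le.trans inf_le_right
  have d : ∀ q ∈ F, Disjoint a q.1 ∧ Disjoint (ρ g a) (ρ q.2 q.1) := fun q hq =>
    ⟨disjoint_sdiff_self_left.mono a1 (le_iSup (fun p : F => p.1.1) ⟨q, hq⟩),
      disjoint_sdiff_self_left.mono a2 (le_iSup (fun p : F => ρ p.1.2 p.1.1) ⟨q, hq⟩)⟩
  have hm : (a, g) ∈ F := by
    refine hF.le_of_ge (y := insert (a, g) F) ⟨?_, ?_⟩ (Set.subset_insert _ _) (Set.mem_insert _ _)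
    · rintro p (rfl | hp)
      · exact ⟨a1.trans sdiff_le, a2.trans sdiff_le⟩
      · exact h1 p hp
    · exact h2.insert fun q hq _ => ⟨d q hq, (d q hq).1.symm, (d q hq).2.symm⟩
  rw [disjoint_iff, ← ga]
  exact disjoint_self.1 (d _ hm).2

end CmpA

theorem sCmp : SCmp := by
  intro α G _ _ ρ e f
  obtain ⟨e₀, f₀, h1, h2, h3, h4⟩ := CmpA.exists_max ρ e f
  have hz := (inv_sat (ρ := ρ) (e \ e₀)).compl
  have d1 : Disjoint (⨆ g, ρ g (e \ e₀))ᶜ (e \ e₀) := by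
    refine disjoint_compl_left.mono_right ?_
    simpa only [one_app] using le_iSup (fun g => ρ g (e \ e₀)) 1
  have d2 : Disjoint (⨆ g, ρ g (e \ e₀))ᶜᶜ (f \ f₀) := by
    rw [compl_compl]
    exact iSup_disjoint_iff.2 h4
  generalize (⨆ g, ρ g (e \ e₀))ᶜ = z at hz d1 d2
  have e1 : z ⊓ e = z ⊓ e₀ := by
    rw [← sup_sdiff_cancel_right h1, inf_sup_left, d1.eq_bot, sup_bot_eq]
  have e2 : zᶜ ⊓ f = zᶜ ⊓ f₀ := by
    rw [← sup_sdiff_cancel_right h2, inf_sup_left, d2.eq_bot, sup_bot_eq]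
  exact ⟨z, hz, ⟨z ⊓ f₀, inf_le_inf_left _ h2, e1 ▸ h3.inv_inf hz⟩,
    ⟨zᶜ ⊓ e₀, inf_le_inf_left _ h1, e2 ▸ h3.symm.inv_inf hz.compl⟩⟩

theorem sSB : SSB := by
  rintro α G _ _ ρ e f ⟨f₁, hf, h1⟩ ⟨e₁, he, h2⟩
  obtain ⟨φ, p1, -, p2, p3, -⟩ := h1.map
  obtain ⟨ψ, q1, -, q2, q3, -⟩ := h2.map
  let T : α →o α := ⟨fun a => e \ ψ (f \ φ a), fun a b h =>
    sdiff_le_sdiff_left (q1 (sdiff_le_sdiff_left (p1 h)))⟩
  obtain ⟨a, ha⟩ : ∃ a, e \ ψ (f \ φ a) = a := ⟨T.lfp, T.map_lfp⟩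
  have := (p3 a (ha.ge.trans sdiff_le)).sup (q3 (f \ φ a) sdiff_le).symm
    (disjoint_sdiff_self_left.mono_left ha.ge) disjoint_sdiff_self_right
  have e1 : a ⊔ ψ (f \ φ a) = e :=
    (congrArg (· ⊔ ψ (f \ φ a)) ha.symm).trans (sdiff_sup_cancel ((q2 _).trans he))
  rwa [e1, sup_sdiff_cancel_right ((p2 a).trans hf)] at this

end Pool.Agent.MP_1231ed_gt.S

end FCmp

section FInfin
namespace Pool.Agent.MP_1231ed_gt.S

open Function

namespace InfinA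

variable {α G : Type} [CompleteBooleanAlgebra α] [Group G] {ρ : G →* (α ≃o α)}

theorem fin_sSup (b : α) : Fin' ρ (sSup {z | Inv ρ z ∧ Fin' ρ (z ⊓ b)} ⊓ b) := by
  intro e' he h
  refine le_antisymm he ?_
  rw [sSup_inf_eq]
  refine iSup₂_le fun w hw => ?_
  have hwz : w ≤ sSup {z | Inv ρ z ∧ Fin' ρ (z ⊓ b)} := le_sSup hw
  have h1 := h.inv_inf hw.1
  rw [← inf_assoc, inf_eq_left.2 hwz] at h1
  have h2 := hw.2 (w ⊓ e') (inf_le_inf_left _ (he.trans inf_le_right)) h1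
  rw [← h2]
  exact inf_le_right

theorem iter {c : α} {φ : α → α} (h1 : ∀ a, φ a ≤ c) (h2 : ∀ a, a ≤ c → Eqv ρ a (φ a)) (n : ℕ) :
    ∀ a, a ≤ c → φ^[n] a ≤ c ∧ Eqv ρ a (φ^[n] a) := by
  induction n with
  | zero => exact fun a ha => ⟨ha, Eqv.refl a⟩
  | succ n ih =>
    intro a ha
    rw [iterate_succ_apply']
    exact ⟨h1 _, (ih a ha).2.trans (h2 _ (ih a ha).1)⟩

theorem iter_disj {φ : α → α} (h : ∀ a b, Disjoint a b → Disjoint (φ a) (φ b)) (n : ℕ) {a b : α}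
    (d : Disjoint a b) : Disjoint (φ^[n] a) (φ^[n] b) := by
  induction n with
  | zero => exact d
  | succ n ih =>
    rw [iterate_succ_apply', iterate_succ_apply']
    exact h _ _ ih

theorem pw {φ : α → α} {d : α} (h : ∀ a b, Disjoint a b → Disjoint (φ a) (φ b))
    (h0 : ∀ a, Disjoint d (φ a)) : Pairwise (Disjoint on fun n : ℕ => φ^[n] d) := by
  refine pairwise_disjoint_on (fun n : ℕ => φ^[n] d) |>.2 fun m n hmn => ?_
  obtain ⟨k, rfl⟩ := Nat.exists_eq_add_of_lt hmn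
  rw [add_assoc, iterate_add_apply, iterate_succ_apply']
  exact iter_disj h m (h0 _)

theorem step [Countable G] {w b : α} (hw : Inv ρ w) (h : ¬ Fin' ρ (w ⊓ b)) :
    ∃ w', w' ≠ ⊥ ∧ Inv ρ w' ∧ w' ≤ w ∧ Sub ρ w' (w' ⊓ b) := by
  unfold Fin' at h
  push Not at h
  obtain ⟨e', he, hE, hne⟩ := h
  obtain ⟨φ, mono, -, p1, p2, p3, -⟩ := hE.map
  have hd : (w ⊓ b) \ e' ≠ ⊥ := fun h0 => hne (le_antisymm he (sdiff_eq_bot_iff.1 h0))
  have hdc : (w ⊓ b) \ e' ≤ w ⊓ b := sdiff_le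
  have hd0 : ∀ a, Disjoint ((w ⊓ b) \ e') (φ a) := fun a =>
    disjoint_sdiff_self_left.mono_right (p1 a)
  generalize (w ⊓ b) \ e' = d at hd hdc hd0
  have it := iter (ρ := ρ) (fun a => (p1 a).trans he) p2
  have hp := pw p3 hd0
  obtain ⟨g, hg⟩ := exists_surjective_nat G
  have hs : ⨆ n, disjointed (fun n => ρ (g n) d) n = ⨆ g, ρ g d := by
    rw [iSup_disjointed]
    exact hg.iSup_comp fun g => ρ g d
  have hu : ∀ n, ρ (g n)⁻¹ (disjointed (fun n => ρ (g n) d) n) ≤ d := fun n => by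
    conv_rhs => rw [← inv_app (ρ := ρ) (g n) d]
    exact (ρ _).monotone (disjointed_le (fun n => ρ (g n) d) n)
  have gl := Eqv.glue (ρ := ρ) (a := disjointed fun n => ρ (g n) d)
    (b := fun n => φ^[n] (ρ (g n)⁻¹ (disjointed (fun n => ρ (g n) d) n)))
    (fun n => (Eqv.app _ _).trans (it n _ ((hu n).trans hdc)).2) (disjoint_disjointed _)
    (fun m n hmn => (hp hmn).mono (mono.iterate m (hu m)) (mono.iterate n (hu n)))
  rw [hs] at gl
  refine ⟨⨆ g, ρ g d, fun h0 => hd ?_, inv_sat d, iSup_le fun k => ?_, _, ?_, gl⟩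
  · have := le_iSup (fun g => ρ g d) 1
    rw [h0, one_app] at this
    exact le_bot_iff.1 this
  · rw [← hw k]
    exact (ρ k).monotone (hdc.trans inf_le_left)
  · exact le_inf (gl.le_inv (inv_sat d) le_rfl)
      (iSup_le fun n => (it n _ ((hu n).trans hdc)).1.trans inf_le_right)

theorem exhaust {y b : α} (hy : Inv ρ y)
    (h : ∀ w, w ≠ ⊥ → Inv ρ w → w ≤ y → ∃ w', w' ≠ ⊥ ∧ Inv ρ w' ∧ w' ≤ w ∧ Sub ρ w' (w' ⊓ b)) :
    Sub ρ y (y ⊓ b) := by
  obtain ⟨T, hT⟩ := zorn_subset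
    {T : Set α | T.Pairwise Disjoint ∧ ∀ w ∈ T, Inv ρ w ∧ w ≤ y ∧ Sub ρ w (w ⊓ b)} (by
      intro c hc hch
      refine ⟨⋃₀ c, ⟨?_, ?_⟩, fun s hs => Set.subset_sUnion_of_mem hs⟩
      · rintro a ⟨s, hs, ha⟩ a' ⟨s', hs', ha'⟩ hn
        rcases hch.total hs hs' with k | k
        · exact (hc hs').1 (k ha) ha' hn
        · exact (hc hs).1 ha (k ha') hn
      · rintro a ⟨s, hs, ha⟩
        exact (hc hs).2 a ha)
  obtain ⟨⟨t1, t2⟩, tm⟩ := hT
  have hs : sSup T = y := by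
    refine le_antisymm (sSup_le fun w hw => (t2 w hw).2.1) ?_
    by_contra hn
    have hr : y ⊓ (sSup T)ᶜ ≠ ⊥ := fun h0 => hn (by rwa [← sdiff_eq, sdiff_eq_bot_iff] at h0)
    obtain ⟨w, w0, w1, w2, w3⟩ :=
      h _ hr (hy.inf (Inv.sSup fun z hz => (t2 z hz).1).compl) inf_le_left
    have wd : Disjoint w (sSup T) := disjoint_compl_left.mono_left (w2.trans inf_le_right)
    have := tm (y := insert w T) ⟨?_, ?_⟩ (Set.subset_insert _ _) (Set.mem_insert _ _)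
    · exact w0 (wd.eq_bot_of_le (le_sSup this))
    · refine t1.insert fun a ha _ => ?_
      have := wd.mono_right (le_sSup ha)
      exact ⟨this, this.symm⟩
    · rintro a (rfl | ha)
      · exact ⟨w1, w2.trans inf_le_left, w3⟩
      · exact t2 a ha
  choose f f1 f2 using fun w : T => (t2 w w.2).2.2
  have d1 : Pairwise (Disjoint on fun w : T => (w : α)) := fun a a' hn =>
    t1 a.2 a'.2 fun e => hn (Subtype.ext e)
  have gl := Eqv.glue f2 d1 fun a a' hn =>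
    (d1 hn).mono ((f1 a).trans inf_le_left) ((f1 a').trans inf_le_left)
  rw [← sSup_eq_iSup', hs] at gl
  exact ⟨_, iSup_le fun w => (f1 w).trans (inf_le_inf_right _ (t2 w w.2).2.1), gl⟩

end InfinA

theorem sInfin : SInfin := by
  intro α G _ _ _ ρ b
  have hz : Inv ρ (sSup {z | Inv ρ z ∧ Fin' ρ (z ⊓ b)}) := Inv.sSup fun z hz => hz.1
  refine ⟨_, hz, InfinA.fin_sSup b, InfinA.exhaust hz.compl fun w w0 w1 w2 =>
    InfinA.step w1 fun hf => w0 ?_⟩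
  have hm : w ≤ sSup {z | Inv ρ z ∧ Fin' ρ (z ⊓ b)} := le_sSup ⟨w1, hf⟩
  exact le_bot_iff.1 (disjoint_compl_right hm w2)

end Pool.Agent.MP_1231ed_gt.S

end FInfin

section FHalf
namespace Pool.Agent.MP_1231ed_gt.S

namespace HalfA

variable {α G : Type} [CompleteBooleanAlgebra α] [Group G] {ρ : G →* (α ≃o α)}

theorem split {a b c : α} (h : c ≤ a ⊔ b) : a ⊓ c ⊔ b ⊓ c = c := by
  rw [← inf_sup_right, inf_eq_right.2 h]

theorem cut (z c : α) : z ⊓ c ⊔ zᶜ ⊓ c = c := split (sup_compl_eq_top (x := z) ▸ le_top)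

theorem core {a b a' b' : α} (d : Disjoint a b) (d' : Disjoint a' b') (ha : a' ≤ a ⊔ b)
    (hb : b' ≤ a ⊔ b) (ea : Eqv ρ a a') (eb : Eqv ρ b b') (fa : Fin' ρ a) (fb : Fin' ρ b)
    (h : Sub ρ (b ⊓ a') (a ⊓ b')) : a ⊔ b ≤ a' ⊔ b' := by
  obtain ⟨y, hy, ey⟩ := h
  have e1 : Eqv ρ (a ⊓ a' ⊔ b ⊓ a') (a ⊓ a' ⊔ y) := (Eqv.refl _).sup ey
    (d.mono inf_le_left inf_le_left) (d'.mono inf_le_right (hy.trans inf_le_right))
  rw [split ha] at e1
  have h1 : a ⊓ a' ⊔ y = a := fa _ (sup_le inf_le_left (hy.trans inf_le_left)) (ea.trans e1)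
  have h2 : y = a ⊓ b' := le_antisymm hy
    ((d'.symm.mono inf_le_right inf_le_right : Disjoint (a ⊓ b') (a ⊓ a')).left_le_of_le_sup_left
      (inf_le_left.trans h1.ge))
  have e2 : Eqv ρ (a ⊓ b' ⊔ b ⊓ b') (b ⊓ a' ⊔ b ⊓ b') := (h2 ▸ ey.symm).sup (Eqv.refl _)
    (d.mono inf_le_left inf_le_left) (d'.mono inf_le_right inf_le_right)
  rw [split hb] at e2
  have h3 : b ⊓ a' ⊔ b ⊓ b' = b := fb _ (sup_le inf_le_left inf_le_left) (eb.trans e2)
  exact sup_le (h1.ge.trans (sup_le_sup inf_le_right (hy.trans inf_le_right)))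
    (h3.ge.trans (sup_le_sup inf_le_right inf_le_right))

theorem core' {a b a' b' z : α} (hz : Inv ρ z) (d : Disjoint a b) (d' : Disjoint a' b')
    (ha : a' ≤ a ⊔ b) (hb : b' ≤ a ⊔ b) (ea : Eqv ρ a a') (eb : Eqv ρ b b') (fa : Fin' ρ a)
    (fb : Fin' ρ b) (h : Sub ρ (z ⊓ (b ⊓ a')) (z ⊓ (a ⊓ b'))) : z ⊓ (a ⊔ b) ≤ a' ⊔ b' := by
  rw [inf_inf_distrib_left, inf_inf_distrib_left z a] at h
  have h1 := core (d.mono inf_le_right inf_le_right) (d'.mono inf_le_right inf_le_right)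
    ((inf_le_inf_left z ha).trans (inf_sup_left z a b).le)
    ((inf_le_inf_left z hb).trans (inf_sup_left z a b).le) (ea.inv_inf hz) (eb.inv_inf hz)
    (fa.mono inf_le_right) (fb.mono inf_le_right) h
  rw [inf_sup_left]
  exact h1.trans (sup_le_sup inf_le_right inf_le_right)

theorem fin_eqv {e f : α} (h : Fin' ρ e) (ef : Eqv ρ e f) : Fin' ρ f := by
  intro f' hf e1
  obtain ⟨φ, -, -, h2, h3, h4, -, -⟩ := ef.symm.map
  have h5 : φ f' = e := h _ (h2 f') (ef.trans (e1.trans (h3 f' hf)))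
  have h6 : Disjoint (φ (f \ f')) e := h5 ▸ h4 _ _ disjoint_sdiff_self_left
  have h7 : φ (f \ f') = ⊥ := h6.eq_bot_of_le (h2 _)
  have h8 : f \ f' = ⊥ := (h7 ▸ h3 (f \ f') sdiff_le).eq_bot
  exact le_antisymm hf (sdiff_eq_bot_iff.1 h8)

theorem sub_half [Countable G] (h2 : SCmp) (h3 : SFF) (h4 : SInfin) {s t : G} {p q : α}
    (hp : ρ s p = pᶜ) (hq : ρ t q = qᶜ) : Sub ρ p q := by
  obtain ⟨z, hz, s1, a, ha, ea⟩ := h2 α G ρ p q
  obtain ⟨y, hy, fy, c, hc, ec⟩ := h4 α G ρ q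
  have hv : Inv ρ (y ⊓ zᶜ) := hy.inf hz.compl
  have f1 : Fin' ρ (y ⊓ zᶜ ⊓ q) := fy.mono (inf_le_inf_right q inf_le_left)
  have e1 : Eqv ρ (y ⊓ zᶜ ⊓ q) (y ⊓ zᶜ ⊓ qᶜ) := by
    have h := Eqv.app (ρ := ρ) t (y ⊓ zᶜ ⊓ q)
    rwa [map_inf, hv t, hq] at h
  have dq : Disjoint (y ⊓ zᶜ ⊓ q) (y ⊓ zᶜ ⊓ qᶜ) :=
    disjoint_compl_right.mono inf_le_right inf_le_right
  have f2 : Fin' ρ (y ⊓ zᶜ) := by
    have h := h3 α G ρ _ _ dq f1 (fin_eqv f1 e1)
    rwa [← inf_sup_left, sup_compl_eq_top, inf_top_eq] at h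
  have e2 : Eqv ρ (y ⊓ zᶜ ⊓ q) (y ⊓ a) := by
    rw [inf_assoc]
    exact ea.inv_inf hy
  have l1 : y ⊓ a ≤ y ⊓ zᶜ := inf_le_inf_left y (ha.trans inf_le_left)
  have l2 : y ⊓ a ≤ p := inf_le_right.trans (ha.trans inf_le_right)
  have l3 : ρ s (y ⊓ a) ≤ y ⊓ zᶜ := hv s ▸ (ρ s).monotone l1
  have l4 : ρ s (y ⊓ a) ≤ pᶜ := hp ▸ (ρ s).monotone l2
  have e3 := e2.sup (e1.symm.trans (e2.trans (Eqv.app s _))) dq (disjoint_compl_right.mono l2 l4)
  rw [← inf_sup_left, sup_compl_eq_top, inf_top_eq] at e3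
  have h5 := f2 _ (sup_le l1 l3) e3
  have l5 : y ⊓ zᶜ ⊓ p ≤ y ⊓ a :=
    (disjoint_compl_right.mono inf_le_right l4).left_le_of_le_sup_right (inf_le_left.trans h5.ge)
  have s2 : Sub ρ (y ⊓ (zᶜ ⊓ p)) (y ⊓ (zᶜ ⊓ q)) := by
    rw [← inf_assoc, ← inf_assoc]
    exact (Sub.of_le l5).trans ⟨_, le_rfl, e2.symm⟩
  have s3 : Sub ρ (yᶜ ⊓ (zᶜ ⊓ p)) (yᶜ ⊓ (zᶜ ⊓ q)) := by
    refine (Sub.of_le (le_inf (inf_le_right.trans inf_le_left) inf_le_left)).trans
      ⟨zᶜ ⊓ c, ?_, ec.inv_inf hz.compl⟩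
    rw [inf_left_comm]
    exact inf_le_inf_left _ hc
  have s4 := s2.sup s3 (disjoint_compl_right.mono inf_le_left inf_le_left)
    (disjoint_compl_right.mono inf_le_left inf_le_left)
  rw [cut, cut] at s4
  have s5 := s1.sup s4 (disjoint_compl_right.mono inf_le_left inf_le_left)
    (disjoint_compl_right.mono inf_le_left inf_le_left)
  rwa [cut, cut] at s5

end HalfA

open HalfA

theorem sFF (h : SCmp) : SFF := by
  intro α G _ _ ρ a b d fa fb u hu eu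
  obtain ⟨φ, -, h1, h2, h3, h4, h5, -⟩ := eu.map
  have ha : φ a ≤ a ⊔ b := (h2 a).trans hu
  have hb : φ b ≤ a ⊔ b := (h2 b).trans hu
  have ea := h3 a le_sup_left
  have eb := h3 b le_sup_right
  obtain ⟨z, hz, s1, s2⟩ := h α G ρ (b ⊓ φ a) (a ⊓ φ b)
  have k1 := core' hz d (h4 a b d) ha hb ea eb fa fb s1
  have k2 := core' hz.compl d.symm (h4 a b d).symm (hb.trans (sup_comm a b).le)
    (ha.trans (sup_comm a b).le) eb ea fb fa s2
  rw [sup_comm b, sup_comm (φ b)] at k2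
  refine le_antisymm hu ?_
  rw [← h1, h5, ← cut z (a ⊔ b)]
  exact sup_le k1 k2

theorem sHalf (h1 : SSB) (h2 : SCmp) (h3 : SFF) (h4 : SInfin) : SHalf :=
  fun α G _ _ _ ρ _ _ p q hp hq =>
    h1 α G ρ p q (sub_half h2 h3 h4 hp hq) (sub_half h2 h3 h4 hq hp)

end Pool.Agent.MP_1231ed_gt.S

end FHalf

section FStm
namespace Pool.Agent.MP_1231ed_gt.S

open Pool.Agent.MP_1231ed_gt.R

/-- The projections below `C` form a complete Boolean algebra. -/
def SBA : Prop := ∀ (X E : Type) [MetricSpace X] [CompleteSpace X] [AddCommGroup E]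
  [Module ℝ E] (M : Mod X E) (C : Module.End ℝ E), Pr M C →
  (∀ S S', Pr M S → Pr M S' → C * S = S → S * S' = S' * S) →
  ∃ (α : Type) (_ : CompleteBooleanAlgebra α) (j : α → Module.End ℝ E),
    (∀ a, Pr M (j a) ∧ C * j a = j a) ∧ (∀ Q, Pr M Q → C * Q = Q → ∃ a, j a = Q) ∧
    (∀ a b, a ≤ b ↔ j b * j a = j a) ∧ (∀ a, j aᶜ = C - j a) ∧
    (∀ a b, Disjoint a b → j a * j b = 0) ∧
    ∀ (J : Type) (e : J → α), IsSup M (fun i => j (e i)) (j (⨆ i, e i))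

/-- The fibre of a supremum is the product of the fibres. -/
def SL2 : Prop := ∀ (X E : Type) [MetricSpace X] [CompleteSpace X] [AddCommGroup E]
  [Module ℝ E] (M : Mod X E) (J : Type) (e : J → Module.End ℝ E) (Q : Module.End ℝ E) (x : X),
  Orth M e → IsSup M e Q → ∀ (A : Type) [MetricSpace A] (Y : J → Type) [∀ j, MetricSpace (Y j)],
  Nonempty (Fib M Q x ≃ᵢ A) → (∀ j, Nonempty (Fib M (e j) x ≃ᵢ Y j)) → ∃ a, IsL2 A Y a

end Pool.Agent.MP_1231ed_gt.S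

end FStm

section FBAi
namespace Pool.Agent.MP_1231ed_gt.S

open Pool.Agent.MP_1231ed_gt.R

namespace BAiA

variable {X E : Type} [MetricSpace X] [AddCommGroup E] [Module ℝ E]

/-- a projection below which all projections are central -/
structure Ctr (M : Mod X E) (C : Module.End ℝ E) : Prop where
  pr : Pr M C
  comm : ∀ S S', Pr M S → Pr M S' → C * S = S → S * S' = S' * S

variable {M : Mod X E} {C : Module.End ℝ E}

/-- the projections below `C` -/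
def Al (_ : Ctr M C) : Type := {Q : Module.End ℝ E // Pr M Q ∧ C * Q = Q}

variable {h : Ctr M C}

theorem cm (a b : Al h) : a.1 * b.1 = b.1 * a.1 := h.comm _ _ a.2.1 b.2.1 a.2.2

theorem idm (a : Al h) : a.1 * a.1 = a.1 := a.2.1.idem

theorem lC (a : Al h) : C * a.1 = a.1 := a.2.2

theorem rC (a : Al h) : a.1 * C = a.1 := by rw [h.comm _ _ a.2.1 h.pr a.2.2, a.2.2]

def inf' (a b : Al h) : Al h :=
  ⟨a.1 * b.1, a.2.1.mul b.2.1 (cm a b), by rw [← mul_assoc, lC]⟩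

def cpl (a : Al h) : Al h :=
  ⟨C - a.1, h.pr.sub a.2.1 a.2.2, by rw [mul_sub, h.pr.idem, lC]⟩

def sup' (a b : Al h) : Al h :=
  ⟨a.1 + (cpl a).1 * b.1, a.2.1.add (inf' (cpl a) b).2.1 (by
    simp only [cpl]; rw [← mul_assoc, mul_sub, rC, idm, sub_self, zero_mul]), by
    rw [mul_add, ← mul_assoc, lC, lC]⟩

theorem sup_val (a b : Al h) : (sup' a b).1 = a.1 + b.1 - a.1 * b.1 := by
  simp only [sup', cpl]; rw [sub_mul, lC, add_sub_assoc]

instance : Lattice (Al h) where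
  le a b := b.1 * a.1 = a.1
  le_refl := idm
  le_trans a b c h1 h2 := by
    rw [← h1, ← mul_assoc, h2]
  le_antisymm a b h1 h2 := Subtype.ext (by rw [← h1, ← cm, h2])
  sup := sup'
  le_sup_left a b := by
    rw [sup_val, sub_mul, add_mul, idm, mul_assoc, cm b a, ← mul_assoc, idm, add_sub_cancel_right]
  le_sup_right a b := by
    rw [sup_val, sub_mul, add_mul, idm, mul_assoc, idm, add_sub_cancel_left]
  sup_le a b c h1 h2 := by
    rw [sup_val, mul_sub, mul_add, ← mul_assoc, h1, h2]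
  inf := inf'
  inf_le_left a b := by
    change a.1 * (a.1 * b.1) = a.1 * b.1
    rw [← mul_assoc, idm]
  inf_le_right a b := by
    change b.1 * (a.1 * b.1) = a.1 * b.1
    rw [cm a b, ← mul_assoc, idm]
  le_inf a b c h1 h2 := by
    change b.1 * c.1 * a.1 = a.1
    rw [mul_assoc, h2, h1]

theorem le_def (a b : Al h) : a ≤ b ↔ b.1 * a.1 = a.1 := Iff.rfl

theorem sup_v (a b : Al h) : (a ⊔ b).1 = a.1 + b.1 - a.1 * b.1 := sup_val a b

theorem inf_v (a b : Al h) : (a ⊓ b).1 = a.1 * b.1 := rfl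

instance : DistribLattice (Al h) := DistribLattice.ofInfSupLe fun a b c => le_of_eq <|
  Subtype.ext <| by
    rw [inf_v, sup_v, sup_v, inf_v, inf_v, mul_sub, mul_add, mul_assoc, ← mul_assoc b.1, cm b a,
      mul_assoc, ← mul_assoc a.1 a.1, idm]

instance : BooleanAlgebra (Al h) where
  compl := cpl
  top := ⟨C, h.pr, h.pr.idem⟩
  bot := ⟨0, Pr.zero, mul_zero _⟩
  inf_compl_le_bot a := by
    change 0 * (a.1 * (C - a.1)) = a.1 * (C - a.1)
    rw [mul_sub, rC, idm, sub_self, mul_zero]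
  top_le_sup_compl a := by
    change (a ⊔ cpl a).1 * C = C
    rw [rC, sup_v]
    simp only [cpl]
    rw [mul_sub, rC, idm, sub_self, sub_zero, add_sub_cancel]
  le_top := lC
  bot_le a := mul_zero _
  sdiff_eq _ _ := rfl
  himp_eq _ _ := rfl

theorem cpl_v (a : Al h) : (aᶜ).1 = C - a.1 := rfl

theorem ex_lub [CompleteSpace X] (T : Set (Al h)) : ∃ q, IsLUB T q := by
  classical
  obtain ⟨Q, q1, q2, q3, -⟩ := sSup' X E M
    {P | ∃ s : Finset (Al h), ↑s ⊆ T ∧ (s.sup id).1 = P} ⟨_, ∅, by simp, rfl⟩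
    (by rintro _ ⟨s, -, rfl⟩; exact (s.sup id).2.1) (by
      rintro _ ⟨s, hs, rfl⟩ _ ⟨t, ht, rfl⟩
      refine ⟨_, ⟨s ∪ t, by rw [Finset.coe_union]; exact Set.union_subset hs ht, rfl⟩, ?_, ?_⟩
      · exact (le_def _ _).1 (Finset.sup_mono Finset.subset_union_left)
      · exact (le_def _ _).1 (Finset.sup_mono Finset.subset_union_right))
  have key : ∀ b ∈ upperBounds T, b.1 * Q = Q := by
    intro b hb
    have := q3 (1 - b.1) b.2.1.compl (by
      rintro _ ⟨s, hs, rfl⟩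
      have : s.sup id ≤ b := Finset.sup_le fun a ha => hb (hs ha)
      rw [sub_mul, one_mul, (le_def _ _).1 this, sub_self])
    rw [sub_mul, one_mul, sub_eq_zero] at this
    exact this.symm
  refine ⟨⟨Q, q1, key ⊤ fun _ _ => le_top⟩, fun a ha => ?_, key⟩
  exact q2 _ ⟨{a}, by simpa using ha, by rw [Finset.sup_singleton]; rfl⟩

noncomputable instance [CompleteSpace X] : CompleteBooleanAlgebra (Al h) :=
  { (inferInstance : BooleanAlgebra (Al h)) with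
    sSup := fun T => (ex_lub T).choose
    isLUB_sSup := fun T => (ex_lub T).choose_spec
    sInf := fun T => (ex_lub (lowerBounds T)).choose
    isGLB_sInf := fun T => isLUB_lowerBounds.1 (ex_lub (lowerBounds T)).choose_spec }

end BAiA

open BAiA in
theorem sBA : SBA := by
  intro X E _ _ _ _ M C hC hc
  have h : Ctr M C := ⟨hC, hc⟩
  refine ⟨Al h, inferInstance, fun a => a.1, fun a => a.2, fun Q a b => ⟨⟨Q, a, b⟩, rfl⟩,
    fun a b => Iff.rfl, fun a => rfl, fun a b d => (inf_v a b).symm.trans (by rw [disjoint_iff.1 d]; rfl),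
    fun J e => ⟨(⨆ i, e i).2.1, fun i => (le_def _ _).1 (le_iSup e i), fun S hS h0 => ?_⟩⟩
  have cs : C * S = S * C := hc _ _ hC hS hC.idem
  let s : Al h := ⟨C * S, hC.mul hS cs, by rw [← mul_assoc, hC.idem]⟩
  have : ⨆ i, e i ≤ sᶜ := iSup_le fun i => by
    rw [le_def, cpl_v, sub_mul, lC]
    simp only [s]
    rw [mul_assoc, h0, mul_zero, sub_zero]
  rw [le_def, cpl_v, sub_mul, lC, sub_eq_self] at this
  simp only [s] at this
  rwa [cs, mul_assoc, lC] at this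

end Pool.Agent.MP_1231ed_gt.S

end FBAi

section FL2P
namespace Pool.Agent.MP_1231ed_gt.S

open Pool.Agent.MP_1231ed_gt.R

theorem sL2 : SL2 := by
  rintro X E _ _ _ _ M J e Q x ho hQ A _ Y _ ⟨g⟩ hψ
  have ψ : ∀ j, Fib M (e j) x ≃ᵢ Y j := fun j => (hψ j).some
  have key : ∀ p q : Fib M Q x, HasSum (fun j =>
      dist (ψ j ⟨FibA.pj (ho.1 j) p x, FibA.pj_mem _ _ _⟩)
        (ψ j ⟨FibA.pj (ho.1 j) q x, FibA.pj_mem _ _ _⟩) ^ 2) (dist p q ^ 2) := by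
    intro p q
    have h := sPyth sSup' X E M J e Q ho hQ p q
    rw [mu, FibA.fib_sub p.2 q.2, M.dist_sq] at h
    rw [Subtype.dist_eq]
    convert h using 2 with j
    rw [(ψ j).dist_eq, Subtype.dist_eq, FibA.pj_dist, mu, M.symm]
  have hx : ∀ j, (⟨FibA.pj (ho.1 j) x x, FibA.pj_mem _ _ _⟩ : Fib M (e j) x) =
      ⟨x, self_mem_Fib _ x⟩ := fun j => Subtype.ext (M.inj (by simp [FibA.pj_eq]))
  refine ⟨fun j => ψ j ⟨x, self_mem_Fib _ x⟩,
    fun p j => ψ j ⟨FibA.pj (ho.1 j) (g.symm p) x, FibA.pj_mem _ _ _⟩, fun p q => ?_,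
    fun y => ⟨?_, fun h => ?_⟩⟩
  · rw [← g.symm.dist_eq]
    exact key _ _
  · rintro ⟨p, rfl⟩
    simpa only [hx] using (key (g.symm p) ⟨x, self_mem_Fib _ x⟩).summable
  · obtain ⟨z, hz, h'⟩ := sAsm X E M J e Q ho hQ x (fun j => (ψ j).symm (y j))
      (fun j => ((ψ j).symm (y j)).2) (by
        convert h using 3 with j
        rw [← (ψ j).symm.dist_eq, IsometryEquiv.symm_apply_apply, Subtype.dist_eq])
    refine ⟨g ⟨z, hz⟩, funext fun j => ?_⟩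
    rw [← (ψ j).apply_symm_apply (y j)]
    refine congrArg _ (Subtype.ext (M.inj ?_))
    simp only [IsometryEquiv.symm_apply_apply]
    rw [FibA.pj_eq, h', add_sub_cancel]

end Pool.Agent.MP_1231ed_gt.S

end FL2P

section FFin
namespace Pool.Agent.MP_1231ed_gt.S

open Pool.Agent.MP_1231ed_gt.R MainA

namespace FinA

variable {X E : Type} [MetricSpace X] [AddCommGroup E] [Module ℝ E] {M : Mod X E}
  {π P : Module.End ℝ E} {c : Module.End ℝ E ≃+* Module.End ℝ E}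
  {α : Type} [CompleteBooleanAlgebra α] {j : α → Module.End ℝ E}

theorem iso (F : FlipP M π P c) (j1 : ∀ a, Pr M (j a) ∧ (1 - π) * j a = j a)
    (j2 : ∀ Q, Pr M Q → (1 - π) * Q = Q → ∃ a, j a = Q) (j3 : ∀ a b, a ≤ b ↔ j b * j a = j a) :
    ∃ s : α ≃o α, ∀ a, j (s a) = c (j a) := by
  have inj : Function.Injective j := fun a b h =>
    le_antisymm ((j3 a b).2 (by rw [← h, (j1 a).1.idem])) ((j3 b a).2 (by rw [h, (j1 b).1.idem]))
  have : ∀ a, ∃ b, j b = c (j a) := fun a => j2 _ (F.cpr _ (j1 a).1) (by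
    conv_rhs => rw [← (j1 a).2, map_mul, map_sub, map_one, F.cpi])
  choose s hs using this
  have hi : ∀ a, s (s a) = a := fun a => inj (by rw [hs, hs, F.inv])
  refine ⟨⟨⟨s, s, hi, hi⟩, fun {a b} => ?_⟩, hs⟩
  change s a ≤ s b ↔ a ≤ b
  rw [j3, j3, hs, hs, ← map_mul, c.injective.eq_iff]

theorem opt (hπ : IsPi M π) (hP : Pr M P) {J : Type} {e : J → Module.End ℝ E}
    (h : Orth M e) (hs : IsSup M e ((1 - π) * P)) :
    Orth M (fun o : Option J => o.elim (P * π) e) ∧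
      IsSup M (fun o : Option J => o.elim (P * π) e) P := by
  have h1 : Pr M (P * π) := hP.mul hπ.pr (hπ.comm hP).symm
  have h2 : P * π * ((1 - π) * P) = 0 := by
    rw [mul_assoc, ← mul_assoc π, mul_sub, hπ.pr.idem]; simp
  have h3 : ∀ i, P * π * e i = 0 := fun i => by rw [← hs.2.1 i, ← mul_assoc, h2, zero_mul]
  have h4 : P * ((1 - π) * P) = (1 - π) * P := by
    rw [sub_mul, mul_sub, hπ.comm hP, ← mul_assoc P P, one_mul, hP.idem]
  refine ⟨⟨?_, ?_⟩, hP, ?_, fun S hS hz => ?_⟩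
  · rintro (_ | i)
    · exact h1
    · exact h.1 i
  · rintro (_ | i) (_ | k) hn
    · exact absurd rfl hn
    · exact h3 k
    · exact h1.swap (h.1 i) Pr.zero (h3 i)
    · exact h.2 i k fun e => hn (by rw [e])
  · rintro (_ | i)
    · change P * (P * π) = P * π
      rw [← mul_assoc, hP.idem]
    · change P * e i = e i
      rw [← hs.2.1 i, ← mul_assoc, h4]
  · have a : S * (P * π) = 0 := hz none
    have b := hs.2.2 S hS fun i => hz (some i)
    rw [sub_mul, one_mul, mul_sub, hπ.comm hP, a, sub_zero] at b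
    exact b

end FinA

open FinA in
theorem same (hBA : SBA) (hL2 : SL2) (hHalf : SHalf) (A B : Type) [MetricSpace A] [MetricSpace B]
    [CompleteSpace A] [Nonempty A] (φ : A × A ≃ B × B) (hφ : ∀ p q : A × A,
      dist (φ p).1 (φ q).1 ^ 2 + dist (φ p).2 (φ q).2 ^ 2 = dist p.1 q.1 ^ 2 + dist p.2 q.2 ^ 2) :
    ∃ (J : Type) (_ : Countable J) (Y : J → Type) (_ : ∀ j, MetricSpace (Y j)) (a b : ∀ j, Y j),
      IsL2 A Y a ∧ IsL2 B Y b := by
  obtain ⟨a₀⟩ := ‹Nonempty A›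
  let X := WithLp 2 (A × A)
  let e : X ≃ A × A := WithLp.equiv 2 (A × A)
  have he : ∀ p q : X, dist p q ^ 2 = dist (e p).1 (e q).1 ^ 2 + dist (e p).2 (e q).2 ^ 2 := by
    intro p q
    rw [WithLp.prod_dist_eq_add (by norm_num)]
    have h2 : (2 : ENNReal).toReal = ((2 : ℕ) : ℝ) := by norm_num
    rw [h2, Real.rpow_natCast, Real.rpow_natCast, one_div,
      Real.rpow_inv_natCast_pow (by positivity) two_ne_zero]
    rfl
  have : Nonempty X := ⟨e.symm (a₀, a₀)⟩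
  obtain ⟨E, _, _, ⟨M⟩⟩ := sEmb X
  obtain ⟨π, hπ⟩ := sPi sHI X E M
  obtain ⟨P, c, F, hP⟩ := R.MainA.flip (sProj sLin) (sConj sLin) sFib hπ A e he
  obtain ⟨P', c', F', hP'⟩ := R.MainA.flip (sProj sLin) (sConj sLin) sFib hπ B (e.trans φ)
    fun p q => by rw [he]; exact (hφ _ _).symm
  let x : X := e.symm (a₀, a₀)
  obtain ⟨g, -⟩ := hP x
  obtain ⟨g', -⟩ := hP' x
  have hcm : ∀ S S', Pr M S → Pr M S' → (1 - π) * S = S → S * S' = S' * S :=
    fun S S' a b d => comm0 (sComm sTr sBern) hπ a b d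
  obtain ⟨α, _, j, j1, j2, j3, j4, j5, j6⟩ := hBA X E M (1 - π) hπ.pr.compl hcm
  have inj : Function.Injective j := fun a b h =>
    le_antisymm ((j3 a b).2 (by rw [← h, (j1 a).1.idem])) ((j3 b a).2 (by rw [h, (j1 b).1.idem]))
  obtain ⟨s, hs⟩ := iso F j1 j2 j3
  obtain ⟨s', hs'⟩ := iso F' j1 j2 j3
  have pre : ∀ {P : Module.End ℝ E} {c : Module.End ℝ E ≃+* Module.End ℝ E} {s : α ≃o α},
      FlipP M π P c → (∀ a, j (s a) = c (j a)) → (∃ p, j p = (1 - π) * P ∧ s p = pᶜ) ∧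
        ∀ a, Nonempty (Fib M (j a) x ≃ᵢ Fib M (j (s a)) x) := by
    intro P c s F hs
    obtain ⟨p, hp⟩ := j2 _ (hπ.pr.compl.mul F.pr (hcm _ _ hπ.pr.compl F.pr hπ.pr.compl.idem))
      (by rw [← mul_assoc, hπ.pr.compl.idem])
    refine ⟨⟨p, hp, inj ?_⟩, fun a => by rw [hs]; exact F.fib _ x (j1 a).1⟩
    rw [hs, j4, hp, map_mul, map_sub, map_one, F.cpi, F.cP, mul_sub (1 - π), mul_one]
  obtain ⟨⟨p, p1, p2⟩, p3⟩ := pre F hs
  obtain ⟨⟨q, q1, q2⟩, q3⟩ := pre F' hs'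
  let ρ : FreeGroup Bool →* (α ≃o α) := FreeGroup.lift fun b => cond b s s'
  have fib : ∀ (k : FreeGroup Bool) a, Nonempty (Fib M (j a) x ≃ᵢ Fib M (j (ρ k a)) x) := by
    intro k
    induction k using FreeGroup.induction_on with
    | C1 => exact fun a => by rw [one_app]; exact ⟨IsometryEquiv.refl _⟩
    | of b =>
      intro a
      simp only [ρ, FreeGroup.lift_apply_of]
      cases b
      · exact q3 a
      · exact p3 a
    | inv_of b ih =>
      intro a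
      have := ih (ρ (FreeGroup.of b)⁻¹ a)
      rw [app_inv] at this
      exact ⟨this.some.symm⟩
    | mul k l ih ih' =>
      intro a
      rw [mul_app]
      exact ⟨(ih' a).some.trans (ih _).some⟩
  obtain ⟨u, u1, u2, u3, u4⟩ := hHalf α (FreeGroup Bool) ρ (FreeGroup.of true) (FreeGroup.of false)
    p q (by simpa [ρ] using p2) (by simpa [ρ] using q2)
  obtain ⟨o1, o2⟩ := opt hπ F.pr (e := fun k => j (u k))
    ⟨fun k => (j1 _).1, fun k l hn => j5 _ _ (u1 hn)⟩ (by rw [← p1, ← u3]; exact j6 _ u)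
  obtain ⟨o3, o4⟩ := opt hπ F'.pr (e := fun k => j (ρ k (u k)))
    ⟨fun k => (j1 _).1, fun k l hn => j5 _ _ (u2 hn)⟩ (by rw [← q1, ← u4]; exact j6 _ _)
  obtain ⟨U, _, _, _, ⟨k⟩, hU⟩ := hil1 (sHF sHI) sFib sCongr hπ F x
  obtain ⟨U', _, _, _, ⟨k'⟩, hU'⟩ := hil1 (sHF sHI) sFib sCongr hπ F' x
  obtain ⟨i⟩ := sHDim _ U U' hU hU'
  let Y : Option (FreeGroup Bool) → Type := fun o => Fib M (o.elim (P * π) fun k => j (u k)) x
  obtain ⟨a, ha⟩ := hL2 X E M _ _ _ x o1 o2 A Y ⟨g⟩ fun _ => ⟨IsometryEquiv.refl _⟩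
  obtain ⟨b, hb⟩ := hL2 X E M _ _ _ x o3 o4 B Y ⟨g'⟩ (by
    rintro (_ | l)
    · exact ⟨((k.trans i).trans k'.symm).symm⟩
    · exact ⟨(fib l (u l)).some.symm⟩)
  exact ⟨_, inferInstance, Y, inferInstance, a, b, ha, hb⟩

end Pool.Agent.MP_1231ed_gt.S

end FFin

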